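import Mathlib

/-! Games on binary subtrees and Hausdorff dimension: definitions and basic facts. -/

open Set Filter Topology MeasureTheory MeasureTheory.Measure
open scoped ENNReal NNReal

namespace V11258.DW

/-- The metric `d₂` on `{0,1}^ℕ`: `dist x y = (1/2)^n`, with `n` the least index at which `x` and
`y` differ (and `dist x x = 0`). -/
@[instance_reducible]
noncomputable def cantorMetric : MetricSpace (ℕ → Bool) :=
  PiNat.metricSpaceOfDiscreteUniformity fun _ => rfl

attribute [local instance] cantorMetric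

/-- The prefix `⟨x 0, …, x (n-1)⟩` of `x`. -/
def pre (x : ℕ → Bool) (n : ℕ) : List Bool := (List.range n).map x

/-- A subtree: closed under prefixes, and each member has a proper extension in the subtree. -/
def IsSubtree (T : Set (List Bool)) : Prop :=
  (∀ p q : List Bool, p <+: q → q ∈ T → p ∈ T) ∧ ∀ p ∈ T, ∃ q ∈ T, p <+: q ∧ p ≠ q

/-- The canopy of `T`. -/
def canopy (T : Set (List Bool)) : Set (ℕ → Bool) := {x | ∀ n, pre x n ∈ T}

/-- Player I (who moves at even stages) has a winning strategy in the game `(T, W)`. -/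
def WinsI (T : Set (List Bool)) (W : Set (ℕ → Bool)) : Prop :=
  ∃ σ : List Bool → Bool, (∀ p ∈ T, Even p.length → p ++ [σ p] ∈ T) ∧
    ∀ x ∈ canopy T, (∀ n, Even n → x n = σ (pre x n)) → x ∈ W

/-- Player II (who moves at odd stages) has a winning strategy in the game `(T, W)`. -/
def WinsII (T : Set (List Bool)) (W : Set (ℕ → Bool)) : Prop :=
  ∃ σ : List Bool → Bool, (∀ p ∈ T, Odd p.length → p ++ [σ p] ∈ T) ∧
    ∀ x ∈ canopy T, (∀ n, Odd n → x n = σ (pre x n)) → x ∉ W

@[simp] lemma pre_zero (x : ℕ → Bool) : pre x 0 = [] := rfl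

lemma pre_succ (x : ℕ → Bool) (n : ℕ) : pre x (n + 1) = pre x n ++ [x n] := by
  simp [pre, List.range_succ]

@[simp] lemma pre_length (x : ℕ → Bool) (n : ℕ) : (pre x n).length = n := by simp [pre]

lemma pre_eq_iff {x y : ℕ → Bool} {n : ℕ} : pre x n = pre y n ↔ ∀ i < n, x i = y i := by
  simp [pre, List.map_inj_left]

lemma pre_prefix (x : ℕ → Bool) {m n : ℕ} (h : m ≤ n) : pre x m <+: pre x n := by
  induction n, h using Nat.le_induction with
  | base => exact List.prefix_refl _
  | succ n hn ih => rw [pre_succ]; exact ih.trans (List.prefix_append _ _)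

lemma eq_pre_of_prefix {x : ℕ → Bool} {p : List Bool} {n : ℕ} (h : p <+: pre x n) :
    pre x p.length = p := by
  have h1 : p.length ≤ n := by simpa using h.length_le
  have h2 := pre_prefix x h1
  exact (List.prefix_of_prefix_length_le h2 h (by simp)).eq_of_length (by simp)

/-- The cylinder of a node. -/
def cyl (p : List Bool) : Set (ℕ → Bool) := {x | pre x p.length = p}

lemma mem_cyl {p : List Bool} {x : ℕ → Bool} : x ∈ cyl p ↔ pre x p.length = p := Iff.rfl

@[simp] lemma mem_cyl_pre {x y : ℕ → Bool} {n : ℕ} : x ∈ cyl (pre y n) ↔ pre x n = pre y n := by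
  simp [cyl]

@[simp] lemma cyl_nil : cyl [] = univ := by ext; simp [cyl]

lemma cyl_anti {p q : List Bool} (h : p <+: q) : cyl q ⊆ cyl p := by
  intro x hx
  rw [mem_cyl] at hx ⊢
  have : p <+: pre x q.length := by rw [hx]; exact h
  exact eq_pre_of_prefix this

lemma prefix_of_mem_cyl {p q : List Bool} {x : ℕ → Bool} (hp : x ∈ cyl p) (hq : x ∈ cyl q)
    (h : p.length ≤ q.length) : p <+: q := by
  rw [mem_cyl] at hp hq
  rw [← hp, ← hq]; exact pre_prefix x h

lemma pre_mem_cyl_of_prefix {x : ℕ → Bool} {p : List Bool} {n : ℕ} (h : p <+: pre x n) :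
    x ∈ cyl p := eq_pre_of_prefix h

lemma cyl_append_of_mem {p : List Bool} {x : ℕ → Bool} (h : x ∈ cyl p) :
    x ∈ cyl (p ++ [x p.length]) := by
  rw [mem_cyl] at h ⊢
  simp only [List.length_append, List.length_singleton]
  rw [pre_succ, h]

lemma mem_cyl_append {p : List Bool} {b : Bool} {x : ℕ → Bool} :
    x ∈ cyl (p ++ [b]) ↔ x ∈ cyl p ∧ x p.length = b := by
  constructor
  · intro h
    have h1 : x ∈ cyl p := cyl_anti (List.prefix_append _ _) h
    refine ⟨h1, ?_⟩
    have h2 := mem_cyl.1 h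
    simp only [List.length_append, List.length_singleton] at h2
    rw [pre_succ, mem_cyl.1 h1] at h2
    simpa using h2
  · rintro ⟨h, rfl⟩; exact cyl_append_of_mem h

lemma cyl_nonempty (p : List Bool) : (cyl p).Nonempty := by
  refine ⟨fun n => p.getD n false, ?_⟩
  rw [mem_cyl]
  apply List.ext_getElem
  · simp
  · intro i h1 h2
    simp [pre, h2]

lemma isClosed_cyl (p : List Bool) : IsClosed (cyl p) := by
  obtain ⟨y, hy⟩ := cyl_nonempty p
  have : cyl p = ⋂ i ∈ {i : ℕ | i < p.length}, {x : ℕ → Bool | x i = y i} := by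
    ext x
    rw [mem_cyl, ← mem_cyl.1 hy]
    simp only [pre_length, pre_eq_iff, mem_iInter, mem_ofPred_eq]
  rw [this]
  exact isClosed_biInter fun i _ => isClosed_eq (continuous_apply i) continuous_const

lemma isOpen_cyl (p : List Bool) : IsOpen (cyl p) := by
  obtain ⟨y, hy⟩ := cyl_nonempty p
  have : cyl p = ⋂ i ∈ Finset.range p.length, {x : ℕ → Bool | x i = y i} := by
    ext x
    rw [mem_cyl, ← mem_cyl.1 hy]
    simp only [pre_length, pre_eq_iff, mem_iInter, mem_ofPred_eq, Finset.mem_range]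
  rw [this]
  refine isOpen_biInter_finset fun i _ => ?_
  exact IsOpen.preimage (f := fun x : ℕ → Bool => x i) (continuous_apply i)
    (isOpen_discrete ({y i} : Set Bool))

lemma cyl_nhds {x : ℕ → Bool} {U : Set (ℕ → Bool)} (h : U ∈ 𝓝 x) : ∃ n, cyl (pre x n) ⊆ U := by
  obtain ⟨ε, hε, hU⟩ := Metric.mem_nhds_iff.1 h
  obtain ⟨n, hn⟩ := exists_pow_lt_of_lt_one hε (by norm_num : (1 / 2 : ℝ) < 1)
  refine ⟨n, fun y hy => hU ?_⟩
  rw [Metric.mem_ball]
  refine lt_of_le_of_lt ?_ hn
  have : y ∈ PiNat.cylinder x n := by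
    rw [PiNat.mem_cylinder_iff]
    exact pre_eq_iff.1 (mem_cyl_pre.1 hy)
  exact (PiNat.mem_cylinder_iff_dist_le.1 this)

lemma exists_cyl_disjoint {K : Set (ℕ → Bool)} (hK : IsClosed K) {x : ℕ → Bool} (hx : x ∉ K) :
    ∃ n, Disjoint (cyl (pre x n)) K := by
  obtain ⟨n, hn⟩ := cyl_nhds (hK.isOpen_compl.mem_nhds hx)
  exact ⟨n, disjoint_left.2 fun y hy => hn hy⟩

/-- The run of the position `p` under the step function `s`. -/
lemma exists_run (s : List Bool → Bool) (p : List Bool) :
    ∃ x : ℕ → Bool, x ∈ cyl p ∧ ∀ n, p.length ≤ n → x n = s (pre x n) := by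
  let nd : ℕ → List Bool := fun k => Nat.rec p (fun _ q => q ++ [s q]) k
  have nd0 : nd 0 = p := rfl
  have nds : ∀ k, nd (k + 1) = nd k ++ [s (nd k)] := fun k => rfl
  have hlen : ∀ k, (nd k).length = p.length + k := by
    intro k; induction k with
    | zero => simp [nd0]
    | succ k ih => rw [nds]; simp [ih]; omega
  let x : ℕ → Bool := fun n => if n < p.length then p.getD n false else s (nd (n - p.length))
  have hx0 : pre x p.length = p := by
    apply List.ext_getElem
    · simp
    · intro i h1 h2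
      simp [pre, x, h2]
  have hx : ∀ k, pre x (p.length + k) = nd k := by
    intro k; induction k with
    | zero => simpa [nd0] using hx0
    | succ k ih =>
      rw [← Nat.add_assoc, pre_succ, ih, nds]
      congr 2
      simp [x]
  refine ⟨x, hx0, fun n hn => ?_⟩
  obtain ⟨k, rfl⟩ := Nat.exists_eq_add_of_le hn
  rw [hx k]
  simp [x]

lemma ediam_cyl_le {A : Set (ℕ → Bool)} {n : ℕ}
    (h : ∀ x ∈ A, ∀ y ∈ A, pre x n = pre y n) : Metric.ediam A ≤ ENNReal.ofReal ((1 / 2) ^ n) := by
  refine Metric.ediam_le fun x hx y hy => ?_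
  rw [edist_dist]
  refine ENNReal.ofReal_le_ofReal ?_
  have : x ∈ PiNat.cylinder y n := by
    rw [PiNat.mem_cylinder_iff]
    exact pre_eq_iff.1 (h x hx y hy)
  rw [dist_comm]
  exact (PiNat.mem_cylinder_iff_dist_le.1 this) |> fun h => by rw [dist_comm]; exact h

lemma ediam_ge {A : Set (ℕ → Bool)} {x y : ℕ → Bool} (hx : x ∈ A) (hy : y ∈ A) {n : ℕ}
    (h : x n ≠ y n) : ENNReal.ofReal ((1 / 2) ^ n) ≤ Metric.ediam A := by
  refine le_trans ?_ (Metric.edist_le_ediam_of_mem hx hy)
  rw [edist_dist]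
  refine ENNReal.ofReal_le_ofReal ?_
  have hne : x ≠ y := fun e => h (by rw [e])
  have : dist x y = (1 / 2 : ℝ) ^ PiNat.firstDiff x y := PiNat.dist_eq_of_ne hne
  rw [this]
  refine pow_le_pow_of_le_one (by norm_num) (by norm_num) ?_
  by_contra hcon
  exact h (PiNat.apply_eq_of_lt_firstDiff (not_le.1 hcon))

end V11258.DW
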