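import Pool.Agent.V11258.DW.Basic

/-! A Bernstein set. -/

open Set Filter Topology Cardinal
open scoped ENNReal NNReal

namespace V11258.DW

attribute [local instance] cantorMetric

lemma exists_inj_choice {J X : Type} (A : J → Set X) (h : ∀ j, #J ≤ #(A j)) :
    ∃ g : J → X, Function.Injective g ∧ ∀ j, g j ∈ A j := by
  classical
  obtain ⟨r, hwo, hr⟩ := Cardinal.exists_ord_eq J
  have key : ∀ j (f : ∀ i, r i j → X), ∃ x, x ∈ A j ∧ ∀ i (hi : r i j), f i hi ≠ x := by
    intro j f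
    by_contra hcon
    push Not at hcon
    have h1 : A j ⊆ range (fun i : {i // r i j} => f i.1 i.2) := by
      intro x hx
      obtain ⟨i, hi, rfl⟩ := hcon x hx
      exact ⟨⟨i, hi⟩, rfl⟩
    have h2 : #(A j) ≤ #{i // r i j} := (Cardinal.mk_le_mk_of_subset h1).trans Cardinal.mk_range_le
    have h3 : #{i // r i j} < #J := Cardinal.card_typein_lt j hr
    exact absurd (h j) (not_le.2 (h2.trans_lt h3))
  let g : J → X := hwo.wf.fix fun j f => Classical.choose (key j f)
  have hg : ∀ j, g j = Classical.choose (key j fun i _ => g i) := fun j => hwo.wf.fix_eq _ j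
  have hgs : ∀ j, g j ∈ A j ∧ ∀ i, r i j → g i ≠ g j := by
    intro j
    have := Classical.choose_spec (key j fun i _ => g i)
    rw [← hg j] at this
    exact this
  refine ⟨g, fun i j hij => ?_, fun j => (hgs j).1⟩
  exact hwo.trichotomous i j (fun h => absurd hij ((hgs j).2 i h))
    (fun h => absurd hij.symm ((hgs i).2 j h))

instance : CompleteSpace (ℕ → Bool) := inferInstance

/-- A Bernstein set: it splits each nonempty perfect set. -/
theorem exists_bernstein : ∃ B : Set (ℕ → Bool), ∀ C : Set (ℕ → Bool), Perfect C → C.Nonempty →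
    (∃ x ∈ C, x ∈ B) ∧ ∃ x ∈ C, x ∉ B := by
  classical
  let 𝒞 := {C : Set (ℕ → Bool) // Perfect C ∧ C.Nonempty}
  have hinj : Function.Injective (fun C : 𝒞 => {p : List Bool | (cyl p ∩ C.1).Nonempty}) := by
    intro C D hCD
    simp only at hCD
    have key : ∀ C D : 𝒞, {p : List Bool | (cyl p ∩ C.1).Nonempty} =
        {p : List Bool | (cyl p ∩ D.1).Nonempty} → C.1 ⊆ D.1 := by
      intro C D h x hx
      by_contra hxD
      obtain ⟨n, hn⟩ := exists_cyl_disjoint D.2.1.closed hxD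
      have h1 : pre x n ∈ {p : List Bool | (cyl p ∩ C.1).Nonempty} := ⟨x, by simp, hx⟩
      rw [h] at h1
      obtain ⟨y, hy1, hy2⟩ := h1
      exact disjoint_left.1 hn hy1 hy2
    exact Subtype.ext (Subset.antisymm (key C D hCD) (key D C hCD.symm))
  have hcard : #𝒞 ≤ 𝔠 := by
    refine (Cardinal.mk_le_of_injective hinj).trans ?_
    rw [Cardinal.mk_set, Cardinal.mk_list_eq_aleph0, Cardinal.two_power_aleph0]
  have hJ : #(𝒞 × Bool) ≤ 𝔠 := by
    rw [Cardinal.mk_prod]
    simp only [Cardinal.lift_id, Cardinal.mk_bool]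
    calc #𝒞 * 2 ≤ 𝔠 * 𝔠 := mul_le_mul' hcard (Cardinal.nat_lt_continuum 2).le
      _ = 𝔠 := Cardinal.continuum_mul_self
  obtain ⟨g, hg, hgA⟩ := exists_inj_choice (fun j : 𝒞 × Bool => j.1.1) (by
    intro j
    refine hJ.trans ?_
    obtain ⟨f, hf, -, hfi⟩ := j.1.2.1.exists_nat_bool_injection j.1.2.2
    have h1 : #(ℕ → Bool) ≤ #(j.1.1) :=
      Cardinal.mk_le_of_injective (f := fun b => (⟨f b, hf ⟨b, rfl⟩⟩ : j.1.1))
        (fun a b hab => hfi (by simpa using hab))
    have h2 : #(ℕ → Bool) = 𝔠 := by simp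
    rwa [h2] at h1)
  refine ⟨{x | ∃ C : 𝒞, x = g (C, true)}, fun C hC hne => ⟨?_, ?_⟩⟩
  · exact ⟨g (⟨C, hC, hne⟩, true), hgA (⟨C, hC, hne⟩, true), ⟨_, rfl⟩⟩
  · refine ⟨g (⟨C, hC, hne⟩, false), hgA (⟨C, hC, hne⟩, false), ?_⟩
    rintro ⟨D, hD⟩
    have := hg hD
    simp at this

end V11258.DW
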