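import Pool.Agent.V11258.DW.Basic

/-! Net contents on the binary tree and subsets of exact Hausdorff dimension. -/

open Set Filter Topology MeasureTheory MeasureTheory.Measure
open scoped ENNReal NNReal

namespace V11258.DW

attribute [local instance] cantorMetric

instance : BorelSpace (ℕ → Bool) := Pi.borelSpace

/-- Weight of a node of length `n`. -/
noncomputable def w (s : ℝ) (n : ℕ) : ℝ := ((1 / 2 : ℝ) ^ n) ^ s

lemma w_pos (s : ℝ) (n : ℕ) : 0 < w s n := by unfold w; positivity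

lemma w_anti {s : ℝ} (hs : 0 ≤ s) {m n : ℕ} (h : m ≤ n) : w s n ≤ w s m := by
  unfold w
  exact Real.rpow_le_rpow (by positivity)
    (pow_le_pow_of_le_one (by norm_num) (by norm_num) h) hs

lemma w_small {s : ℝ} (hs : 0 < s) {ε : ℝ} (hε : 0 < ε) : ∃ n, ∀ m ≥ n, w s m < ε := by
  have h1 : 0 < ε ^ (1 / s) := by positivity
  obtain ⟨n, hn⟩ := exists_pow_lt_of_lt_one h1 (by norm_num : (1 / 2 : ℝ) < 1)
  refine ⟨n, fun m hm => lt_of_le_of_lt (w_anti hs.le hm) ?_⟩
  unfold w
  have := Real.rpow_lt_rpow (by positivity) hn hs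
  rwa [← Real.rpow_mul hε.le, one_div_mul_cancel hs.ne', Real.rpow_one] at this

lemma w_zero (s : ℝ) : w s 0 = 1 := by simp [w]

/-- `F` covers `A`. -/
def Cov (F : Finset (List Bool)) (A : Set (ℕ → Bool)) : Prop := ∀ x ∈ A, ∃ p ∈ F, x ∈ cyl p

/-- Total weight. -/
noncomputable def wt (s : ℝ) (F : Finset (List Bool)) : ℝ := ∑ p ∈ F, w s p.length

/-- Content at least `c`. -/
def Big (s c : ℝ) (A : Set (ℕ → Bool)) : Prop := ∀ F, Cov F A → c ≤ wt s F

lemma ediam_rpow_le {A : Set (ℕ → Bool)} {s : ℝ} (hs : 0 ≤ s) {n : ℕ}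
    (h : ∀ x ∈ A, ∀ y ∈ A, pre x n = pre y n) :
    Metric.ediam A ^ s ≤ ENNReal.ofReal (w s n) := by
  unfold w
  rw [← ENNReal.ofReal_rpow_of_nonneg (by positivity) hs]
  exact ENNReal.rpow_le_rpow (ediam_cyl_le h) hs

lemma tendsto_half_pow : Tendsto (fun n : ℕ => ENNReal.ofReal ((1 / 2 : ℝ) ^ n)) atTop (𝓝 0) := by
  have : Tendsto (fun n : ℕ => ((1 / 2 : ℝ) ^ n)) atTop (𝓝 0) :=
    tendsto_pow_atTop_nhds_zero_of_lt_one (by norm_num) (by norm_num)
  simpa using ENNReal.tendsto_ofReal this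

/-- Upper bound for Hausdorff measures: covers by sets of points which agree up to `n`. -/
lemma hmeas_le {A : Set (ℕ → Bool)} {s : ℝ} (hs : 0 ≤ s) (c : ℕ → ℝ)
    (ι : ℕ → Type) [∀ n, Fintype (ι n)] (t : ∀ n, ι n → Set (ℕ → Bool))
    (len : ∀ n, ι n → ℕ) (hlen : ∀ n i, n ≤ len n i)
    (ht : ∀ n i, ∀ x ∈ t n i, ∀ y ∈ t n i, pre x (len n i) = pre y (len n i))
    (hA : ∀ n, A ⊆ ⋃ i, t n i) (hc : ∀ n, ∑ i, w s (len n i) ≤ c n) :
    μH[s] A ≤ liminf (fun n => ENNReal.ofReal (c n)) atTop := by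
  refine (hausdorffMeasure_le_liminf_sum s A (l := atTop)
    (fun n : ℕ => ENNReal.ofReal ((1 / 2 : ℝ) ^ n)) tendsto_half_pow t ?_ ?_).trans ?_
  · refine Eventually.of_forall fun n i => ?_
    refine (ediam_cyl_le (ht n i)).trans (ENNReal.ofReal_le_ofReal ?_)
    exact pow_le_pow_of_le_one (by norm_num) (by norm_num) (hlen n i)
  · exact Eventually.of_forall hA
  · refine liminf_le_liminf (Eventually.of_forall fun n => ?_)
    calc ∑ i, Metric.ediam (t n i) ^ s ≤ ∑ i, ENNReal.ofReal (w s (len n i)) :=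
          Finset.sum_le_sum fun i _ => ediam_rpow_le hs (ht n i)
      _ = ENNReal.ofReal (∑ i, w s (len n i)) :=
          (ENNReal.ofReal_sum_of_nonneg fun i _ => (w_pos s _).le).symm
      _ ≤ ENNReal.ofReal (c n) := ENNReal.ofReal_le_ofReal (hc n)

lemma hmeas_le_cov {A : Set (ℕ → Bool)} {s : ℝ} (hs : 0 ≤ s) (c : ℕ → ℝ)
    (F : ℕ → Finset (List Bool)) (hF : ∀ n, Cov (F n) A) (hlen : ∀ n, ∀ p ∈ F n, n ≤ p.length)
    (hc : ∀ n, wt s (F n) ≤ c n) :
    μH[s] A ≤ liminf (fun n => ENNReal.ofReal (c n)) atTop := by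
  refine hmeas_le hs c (fun n => (F n : Type)) (fun n p => cyl p.1) (fun n p => p.1.length)
    (fun n p => hlen n p.1 p.2) ?_ ?_ ?_
  · intro n p x hx y hy
    rw [mem_cyl.1 hx, mem_cyl.1 hy]
  · intro n x hx
    obtain ⟨p, hp, hxp⟩ := hF n x hx
    exact mem_iUnion.2 ⟨⟨p, hp⟩, hxp⟩
  · intro n
    refine le_trans (le_of_eq ?_) (hc n)
    unfold wt
    exact Finset.sum_coe_sort (F n) (fun p => w s p.length)

/-- Positive content. -/
lemma exists_big {A : Set (ℕ → Bool)} {s : ℝ} (hs : 0 < s) (h : μH[s] A ≠ 0) :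
    ∃ c, 0 < c ∧ Big s c A := by
  by_contra hcon
  push Not at hcon
  apply h
  have h1 : ∀ n : ℕ, ∃ F, Cov F A ∧ wt s F < w s n := by
    intro n
    have := hcon (w s n) (w_pos s n)
    unfold Big at this
    push Not at this
    exact this
  choose F hF hFw using h1
  have h2 : ∀ n, ∀ p ∈ F n, n ≤ p.length := by
    intro n p hp
    by_contra hlt
    have h3 : w s n ≤ w s p.length := w_anti hs.le (not_le.1 hlt).le
    have h4 : w s p.length ≤ wt s (F n) :=
      Finset.single_le_sum (f := fun p : List Bool => w s p.length)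
        (fun q _ => (w_pos s _).le) hp
    linarith [hFw n]
  have h5 := hmeas_le_cov hs.le (fun n => w s n) F hF h2 (fun n => (hFw n).le)
  have h6 : Tendsto (fun n => ENNReal.ofReal (w s n)) atTop (𝓝 0) := by
    have : Tendsto (fun n => w s n) atTop (𝓝 0) := by
      rw [Metric.tendsto_atTop]
      intro ε hε
      obtain ⟨n, hn⟩ := w_small hs hε
      refine ⟨n, fun m hm => ?_⟩
      rw [Real.dist_eq, sub_zero, abs_of_pos (w_pos s m)]
      exact hn m hm
    simpa using ENNReal.tendsto_ofReal this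
  rw [h6.liminf_eq] at h5
  exact le_antisymm h5 bot_le

/-- Each set lies in a cylinder which costs hardly more. -/
lemma exists_node {s : ℝ} (hs : 0 < s) (t : Set (ℕ → Bool)) {ε : ℝ} (hε : 0 < ε) :
    ∃ p : List Bool, t ⊆ cyl p ∧
      ENNReal.ofReal (w s p.length) ≤
        (⨆ _ : t.Nonempty, Metric.ediam t ^ s) + ENNReal.ofReal ε := by
  obtain ⟨N, hN⟩ := w_small hs hε
  by_cases hall : ∀ x ∈ t, ∀ y ∈ t, pre x N = pre y N
  · rcases t.eq_empty_or_nonempty with rfl | ⟨x, hx⟩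
    · refine ⟨pre (fun _ => false) N, empty_subset _, ?_⟩
      refine le_trans (ENNReal.ofReal_le_ofReal ?_) le_add_self
      simpa using (hN N le_rfl).le
    · refine ⟨pre x N, fun y hy => ?_, ?_⟩
      · rw [mem_cyl_pre]; exact hall y hy x hx
      · refine le_trans (ENNReal.ofReal_le_ofReal ?_) le_add_self
        simpa using (hN N le_rfl).le
  · push Not at hall
    obtain ⟨x, hx, y, hy, hxy⟩ := hall
    classical
    have hex : ∃ n, ∃ y ∈ t, pre y n ≠ pre x n := ⟨N, y, hy, hxy.symm⟩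
    obtain ⟨y', hy', hne⟩ := Nat.find_spec hex
    set m := Nat.find hex with hm
    have hmpos : m ≠ 0 := by
      intro h0; rw [h0] at hne; exact hne rfl
    obtain ⟨k, hk⟩ := Nat.exists_eq_succ_of_ne_zero hmpos
    have hmin : ∀ z ∈ t, pre z k = pre x k := by
      intro z hz
      by_contra hcon
      exact Nat.find_min hex (m := k) (by omega) ⟨z, hz, hcon⟩
    refine ⟨pre x k, fun z hz => by rw [mem_cyl_pre]; exact hmin z hz, ?_⟩
    have hdiff : y' k ≠ x k := by
      intro h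
      apply hne
      rw [hk, Nat.succ_eq_add_one, pre_succ, pre_succ, hmin y' hy', h]
    have h1 := ediam_ge hy' hx hdiff
    refine le_trans ?_ le_self_add
    refine le_trans ?_ (le_iSup (fun _ : t.Nonempty => Metric.ediam t ^ s) ⟨x, hx⟩)
    rw [pre_length]
    unfold w
    rw [← ENNReal.ofReal_rpow_of_nonneg (by positivity) hs.le]
    exact ENNReal.rpow_le_rpow h1 hs.le

/-- Lower bound for Hausdorff measures of compact sets. -/
lemma hmeas_ge {A : Set (ℕ → Bool)} (hA : IsClosed A) {s c : ℝ} (hs : 0 < s)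
    (hbig : Big s c A) : ENNReal.ofReal c ≤ μH[s] A := by
  rw [hausdorffMeasure_apply]
  refine le_trans ?_ (le_iSup₂ (f := fun (r : ℝ≥0∞) (_ : 0 < r) =>
    ⨅ (t : ℕ → Set (ℕ → Bool)) (_ : A ⊆ ⋃ n, t n) (_ : ∀ n, Metric.ediam (t n) ≤ r),
      ∑' n, ⨆ _ : (t n).Nonempty, Metric.ediam (t n) ^ s) 1 one_pos)
  refine le_iInf fun t => le_iInf fun ht => le_iInf fun _ => ?_
  refine ENNReal.le_of_forall_pos_le_add fun ε hε _ => ?_
  obtain ⟨δ, hδpos, hδ⟩ := ENNReal.exists_pos_sum_of_countable (ι := ℕ) (ε := (ε : ℝ≥0∞))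
    (by simpa using hε.ne') 
  have hδ' : ∀ n, 0 < ((δ n : ℝ)) := fun n => by exact_mod_cast hδpos n
  choose p hp hpw using fun n => exists_node hs (t n) (hδ' n)
  have hcomp : IsCompact A := hA.isCompact
  obtain ⟨F, hF⟩ := hcomp.elim_finite_subcover (fun n => cyl (p n)) (fun n => isOpen_cyl _)
    (ht.trans (iUnion_mono fun n => hp n))
  classical
  have hcov : Cov (F.image p) A := by
    intro x hx
    obtain ⟨n, hn⟩ := mem_iUnion.1 (hF hx)
    obtain ⟨hnF, hxn⟩ := mem_iUnion.1 hn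
    exact ⟨p n, Finset.mem_image_of_mem _ hnF, hxn⟩
  have h1 := hbig _ hcov
  have h2 : wt s (F.image p) ≤ ∑ n ∈ F, w s (p n).length := by
    unfold wt
    exact Finset.sum_image_le_of_nonneg (fun q _ => (w_pos s _).le) |> fun h => by
      simpa using h
  calc ENNReal.ofReal c ≤ ENNReal.ofReal (∑ n ∈ F, w s (p n).length) :=
        ENNReal.ofReal_le_ofReal (h1.trans h2)
    _ = ∑ n ∈ F, ENNReal.ofReal (w s (p n).length) :=
        ENNReal.ofReal_sum_of_nonneg fun i _ => (w_pos s _).le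
    _ ≤ ∑ n ∈ F, ((⨆ _ : (t n).Nonempty, Metric.ediam (t n) ^ s) + ENNReal.ofReal (δ n)) :=
        Finset.sum_le_sum fun n _ => hpw n
    _ ≤ ∑' n, ((⨆ _ : (t n).Nonempty, Metric.ediam (t n) ^ s) + ENNReal.ofReal (δ n)) :=
        ENNReal.sum_le_tsum _
    _ = (∑' n, ⨆ _ : (t n).Nonempty, Metric.ediam (t n) ^ s) + ∑' n, ENNReal.ofReal (δ n) :=
        ENNReal.tsum_add
    _ ≤ _ := by
        gcongr
        simpa using hδ.le

lemma big_anti {s c : ℝ} {A B : Set (ℕ → Bool)} (h : A ⊆ B) (hA : Big s c A) : Big s c B :=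
  fun F hF => hA F fun x hx => hF x (h hx)

/-- A minimal closed set of content at least `c`. -/
lemma exists_minimal_big {K : Set (ℕ → Bool)} (hK : IsClosed K) {s c : ℝ} (hbig : Big s c K) :
    ∃ C, IsClosed C ∧ C ⊆ K ∧ Big s c C ∧ ∀ D, IsClosed D → D ⊆ C → Big s c D → D = C := by
  obtain ⟨C, hC⟩ := zorn_superset {C : Set (ℕ → Bool) | IsClosed C ∧ C ⊆ K ∧ Big s c C} (by
    intro ch hch hchain
    rcases ch.eq_empty_or_nonempty with rfl | hne
    · exact ⟨K, ⟨hK, Subset.rfl, hbig⟩, by simp⟩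
    · refine ⟨⋂₀ ch, ⟨isClosed_sInter fun C hC => (hch hC).1, ?_, ?_⟩,
        fun C hC => sInter_subset_of_mem hC⟩
      · obtain ⟨C, hC⟩ := hne
        exact (sInter_subset_of_mem hC).trans (hch hC).2.1
      · intro F hF
        have : ∃ C ∈ ch, C ⊆ ⋃ p ∈ F, cyl p := by
          by_contra hcon
          push Not at hcon
          have hO : IsOpen (⋃ p ∈ F, cyl p) := isOpen_biUnion fun p _ => isOpen_cyl p
          have : (⋂₀ ((fun C => C \ ⋃ p ∈ F, cyl p) '' ch)).Nonempty := by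
            have : Nonempty ↥((fun C => C \ ⋃ p ∈ F, cyl p) '' ch) := (hne.image _).to_subtype
            refine IsCompact.nonempty_sInter_of_directed_nonempty_isCompact_isClosed
              ?_ ?_ ?_ ?_
            · rintro _ ⟨C, hC, rfl⟩ _ ⟨D, hD, rfl⟩
              rcases hchain.total hC hD with h | h
              · exact ⟨_, ⟨C, hC, rfl⟩, Subset.rfl, sdiff_subset_sdiff_left h⟩
              · exact ⟨_, ⟨D, hD, rfl⟩, sdiff_subset_sdiff_left h, Subset.rfl⟩
            · rintro _ ⟨C, hC, rfl⟩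
              rw [sdiff_nonempty]; exact hcon C hC
            · rintro _ ⟨C, hC, rfl⟩
              exact ((hch hC).1.sdiff hO).isCompact
            · rintro _ ⟨C, hC, rfl⟩
              exact (hch hC).1.sdiff hO
          obtain ⟨x, hx⟩ := this
          have hx1 : x ∈ ⋂₀ ch := by
            intro C hC
            exact (hx _ ⟨C, hC, rfl⟩).1
          obtain ⟨C, hC⟩ := hne
          have hx2 := (hx _ ⟨C, hC, rfl⟩).2
          obtain ⟨p, hp, hxp⟩ := hF x hx1
          exact hx2 (mem_biUnion hp hxp)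
        obtain ⟨C, hC, hCF⟩ := this
        refine (hch hC).2.2 F fun x hx => ?_
        obtain ⟨p, hp, hxp⟩ := mem_iUnion₂.1 (hCF hx)
        exact ⟨p, hp, hxp⟩)
  refine ⟨C, hC.prop.1, hC.prop.2.1, hC.prop.2.2, fun D hD hDC hDb => ?_⟩
  exact Subset.antisymm hDC (hC.le_of_le ⟨hD, hDC.trans hC.prop.2.1, hDb⟩ hDC)

lemma exists_long_prefix {K : Set (ℕ → Bool)} {p : List Bool} {x : ℕ → Bool} (hx : x ∈ K)
    (hp : x ∈ cyl p) (n : ℕ) : ∃ q, p <+: q ∧ x ∈ cyl q ∧ x ∈ K ∧ n ≤ q.length ∧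
      p.length < q.length := by
  refine ⟨pre x (max n (p.length + 1)), ?_, by simp, hx, by simp, by simp⟩
  rw [← mem_cyl.1 hp]
  simp only [pre_length]
  exact pre_prefix x (by omega)

/-- In a minimal set, each node can be replaced by longer nodes at almost no cost. -/
lemma refine_node {C : Set (ℕ → Bool)} (hC : IsClosed C) {s c : ℝ} (hs : 0 < s)
    (hbig : Big s c C) (hmin : ∀ D, IsClosed D → D ⊆ C → Big s c D → D = C)
    (p : List Bool) {ε : ℝ} (hε : 0 < ε) :
    ∃ F : Finset (List Bool), Cov F (C ∩ cyl p) ∧ (∀ q ∈ F, p.length < q.length) ∧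
      wt s F ≤ w s p.length + ε := by
  classical
  rcases (C ∩ cyl p).eq_empty_or_nonempty with he | ⟨x, hxC, hxp⟩
  · refine ⟨∅, fun x hx => by rw [he] at hx; exact hx.elim, by simp, ?_⟩
    have := w_pos s p.length
    simp only [wt, Finset.sum_empty]; linarith
  obtain ⟨N, hN⟩ := w_small hs hε
  obtain ⟨t, hpt, hxt, -, hNt, hlt⟩ := exists_long_prefix hxC hxp N
  have hC' : IsClosed (C \ cyl t) := hC.sdiff (isOpen_cyl t)
  have hnb : ¬ Big s c (C \ cyl t) := by
    intro h
    have := hmin _ hC' sdiff_subset h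
    rw [← this] at hxC
    exact hxC.2 hxt
  unfold Big at hnb
  push Not at hnb
  obtain ⟨F', hF', hF'w⟩ := hnb
  -- no node of `F'` is a prefix of `p`
  have hnp : ∀ q ∈ F', ¬ q <+: p := by
    intro q hq hqp
    have : Cov F' C := by
      intro y hy
      by_cases hyt : y ∈ cyl t
      · exact ⟨q, hq, cyl_anti (hqp.trans hpt) hyt⟩
      · exact hF' y ⟨hy, hyt⟩
    linarith [hbig F' this]
  let G := F'.filter fun q => p <+: q
  have hG : ∀ q ∈ G, p.length < q.length := by
    intro q hq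
    obtain ⟨hq1, hq2⟩ := Finset.mem_filter.1 hq
    refine lt_of_le_of_ne hq2.length_le fun h => ?_
    exact hnp q hq1 (by rw [hq2.eq_of_length h])
  have hGcov : ∀ y ∈ C, y ∈ cyl p → y ∉ cyl t → ∃ q ∈ G, y ∈ cyl q := by
    intro y hy hyp hyt
    obtain ⟨q, hq, hyq⟩ := hF' y ⟨hy, hyt⟩
    refine ⟨q, Finset.mem_filter.2 ⟨hq, ?_⟩, hyq⟩
    rcases le_total p.length q.length with h | h
    · exact prefix_of_mem_cyl hyp hyq h
    · exact absurd (prefix_of_mem_cyl hyq hyp h) (hnp q hq)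
  refine ⟨insert t G, ?_, ?_, ?_⟩
  · rintro y ⟨hy, hyp⟩
    by_cases hyt : y ∈ cyl t
    · exact ⟨t, Finset.mem_insert_self _ _, hyt⟩
    · obtain ⟨q, hq, hyq⟩ := hGcov y hy hyp hyt
      exact ⟨q, Finset.mem_insert_of_mem hq, hyq⟩
  · intro q hq
    rcases Finset.mem_insert.1 hq with rfl | hq
    · exact hlt
    · exact hG q hq
  · have h1 : wt s (insert t G) ≤ w s t.length + wt s G := by
      unfold wt
      by_cases ht : t ∈ G
      · rw [Finset.insert_eq_of_mem ht]; linarith [w_pos s t.length]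
      · rw [Finset.sum_insert ht]
    have h2 : wt s G ≤ w s p.length := by
      by_contra hcon
      push Not at hcon
      have hcov : Cov (insert p (F' \ G)) C := by
        intro y hy
        by_cases hyp : y ∈ cyl p
        · exact ⟨p, Finset.mem_insert_self _ _, hyp⟩
        · have hyt : y ∉ cyl t := fun h => hyp (cyl_anti hpt h)
          obtain ⟨q, hq, hyq⟩ := hF' y ⟨hy, hyt⟩
          refine ⟨q, Finset.mem_insert_of_mem (Finset.mem_sdiff.2 ⟨hq, fun hqG => ?_⟩), hyq⟩
          exact hyp (cyl_anti (Finset.mem_filter.1 hqG).2 hyq)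
      have h3 := hbig _ hcov
      have h4 : wt s (insert p (F' \ G)) ≤ w s p.length + wt s (F' \ G) := by
        unfold wt
        by_cases hp : p ∈ F' \ G
        · rw [Finset.insert_eq_of_mem hp]; linarith [w_pos s p.length]
        · rw [Finset.sum_insert hp]
      have h5 : wt s (F' \ G) + wt s G = wt s F' :=
        Finset.sum_sdiff (Finset.filter_subset _ _)
      linarith
    have h3 := hN t.length hNt
    linarith

lemma wt_biUnion_le {s : ℝ} [DecidableEq (List Bool)] (F : Finset (List Bool))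
    (G : List Bool → Finset (List Bool)) : wt s (F.biUnion G) ≤ ∑ p ∈ F, wt s (G p) := by
  classical
  induction F using Finset.induction_on with
  | empty => simp [wt]
  | insert a F ha ih =>
    rw [Finset.biUnion_insert, Finset.sum_insert ha]
    have h1 : wt s (G a ∪ F.biUnion G) + wt s (G a ∩ F.biUnion G) =
        wt s (G a) + wt s (F.biUnion G) := Finset.sum_union_inter
    have h2 : 0 ≤ wt s (G a ∩ F.biUnion G) := Finset.sum_nonneg fun q _ => (w_pos s _).le
    linarith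

lemma minimal_cov {C : Set (ℕ → Bool)} (hC : IsClosed C) {s c : ℝ} (hs : 0 < s)
    (hbig : Big s c C) (hmin : ∀ D, IsClosed D → D ⊆ C → Big s c D → D = C) (n : ℕ) :
    ∀ ε : ℝ, 0 < ε → ∃ F : Finset (List Bool), Cov F C ∧ (∀ q ∈ F, n ≤ q.length) ∧
      wt s F ≤ 1 + ε := by
  classical
  induction n with
  | zero =>
    intro ε hε
    refine ⟨{[]}, fun x _ => ⟨[], by simp, by simp⟩, by simp, ?_⟩
    simp only [wt, Finset.sum_singleton, List.length_nil, w_zero]; linarith
  | succ n ih =>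
    intro ε hε
    obtain ⟨F, hF, hFl, hFw⟩ := ih (ε / 2) (by positivity)
    have hpos : 0 < ε / 2 / (F.card + 1) := by positivity
    choose G hG hGl hGw using fun p => refine_node hC hs hbig hmin p hpos
    refine ⟨F.biUnion G, ?_, ?_, ?_⟩
    · intro x hx
      obtain ⟨p, hp, hxp⟩ := hF x hx
      obtain ⟨q, hq, hxq⟩ := hG p x ⟨hx, hxp⟩
      exact ⟨q, Finset.mem_biUnion.2 ⟨p, hp, hq⟩, hxq⟩
    · intro q hq
      obtain ⟨p, hp, hq⟩ := Finset.mem_biUnion.1 hq
      have := hGl p q hq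
      have := hFl p hp
      omega
    · calc wt s (F.biUnion G) ≤ ∑ p ∈ F, wt s (G p) := by
            exact wt_biUnion_le F G
        _ ≤ ∑ p ∈ F, (w s p.length + ε / 2 / (F.card + 1)) :=
            Finset.sum_le_sum fun p _ => hGw p
        _ = wt s F + F.card * (ε / 2 / (F.card + 1)) := by
            rw [Finset.sum_add_distrib, Finset.sum_const, nsmul_eq_mul]; rfl
        _ ≤ (1 + ε / 2) + ε / 2 := by
            have : (F.card : ℝ) * (ε / 2 / (F.card + 1)) ≤ ε / 2 := by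
              rw [mul_div_assoc']
              rw [div_le_iff₀ (by positivity)]
              nlinarith [(Nat.cast_nonneg F.card : (0 : ℝ) ≤ F.card)]
            linarith
        _ = 1 + ε := by ring

/-- **Subsets of exact dimension.** -/
theorem exists_dimH_eq {K : Set (ℕ → Bool)} (hK : IsClosed K) {s : ℝ≥0} (hs : 0 < s)
    (h : (s : ℝ≥0∞) < dimH K) : ∃ C, IsClosed C ∧ C ⊆ K ∧ dimH C = s := by
  have hs' : (0 : ℝ) < s := by exact_mod_cast hs
  have h1 : μH[(s : ℝ)] K = ∞ := hausdorffMeasure_of_lt_dimH h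
  obtain ⟨c, hc, hbig⟩ := exists_big (A := K) hs' (by rw [h1]; simp)
  obtain ⟨C, hC, hCK, hCb, hmin⟩ := exists_minimal_big hK hbig
  refine ⟨C, hC, hCK, dimH_of_hausdorffMeasure_ne_zero_ne_top ?_ ?_⟩
  · have := hmeas_ge hC hs' hCb
    intro h0
    rw [h0] at this
    have h2 : ENNReal.ofReal c = 0 := le_antisymm this bot_le
    rw [ENNReal.ofReal_eq_zero] at h2
    linarith
  · choose F hF hFl hFw using fun n => minimal_cov hC hs' hCb hmin n 1 one_pos
    have := hmeas_le_cov hs'.le (fun _ => 1 + 1) F hF hFl hFw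
    rw [liminf_const] at this
    intro htop
    rw [htop] at this
    exact ENNReal.ofReal_ne_top (le_antisymm le_top this)

end V11258.DW
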