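import Pool.Agent.V11258.DW.Dim
import Pool.Agent.V11258.DW.Bern

/-! Non-determined sets on binary subtrees of dimension greater than `1/2`. -/

open Set Filter Topology MeasureTheory MeasureTheory.Measure
open scoped ENNReal NNReal

namespace V11258.DW

attribute [local instance] cantorMetric

lemma isClosed_of_pre {S : Set (ℕ → Bool)}
    (h : ∀ x, x ∉ S → ∃ n, ∀ y, pre y n = pre x n → y ∉ S) : IsClosed S := by
  rw [← isOpen_compl_iff, isOpen_iff_mem_nhds]
  intro x hx
  obtain ⟨n, hn⟩ := h x hx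
  refine mem_of_superset ((isOpen_cyl (pre x n)).mem_nhds (by simp)) fun y hy => ?_
  exact hn y (mem_cyl_pre.1 hy)

lemma w_half (m : ℕ) : w (1 / 2) (2 * m) = (1 / 2) ^ m := by
  unfold w
  rw [pow_mul, ← Real.rpow_natCast ((1 / 2 : ℝ) ^ 2), ← Real.rpow_mul (by positivity),
    mul_comm, Real.rpow_mul (by positivity), Real.rpow_natCast]
  congr 1
  rw [show ((1 : ℝ) / 2) ^ 2 = (1 / 2) * (1 / 2) by ring, ← Real.sqrt_eq_rpow,
    Real.sqrt_mul_self (by norm_num)]

lemma dimH_le_half {A : Set (ℕ → Bool)} (t : ∀ n : ℕ, (Fin n → Bool) → Set (ℕ → Bool))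
    (len : ∀ n : ℕ, (Fin n → Bool) → ℕ) (hlen : ∀ n i, 2 * n ≤ len n i)
    (ht : ∀ n i, ∀ x ∈ t n i, ∀ y ∈ t n i, pre x (len n i) = pre y (len n i))
    (hA : ∀ n, A ⊆ ⋃ i, t n i) : dimH A ≤ 1 / 2 := by
  have h1 : μH[((1 / 2 : ℝ≥0) : ℝ)] A ≤ 1 := by
    have h2 := hmeas_le (A := A) (s := ((1 / 2 : ℝ≥0) : ℝ)) (by positivity) (fun _ => 1)
      (fun n => Fin n → Bool) t len (fun n i => le_trans (by omega) (hlen n i)) ht hA (by
        intro n
        have hw : ∀ i : Fin n → Bool, w ((1 / 2 : ℝ≥0) : ℝ) (len n i) ≤ (1 / 2) ^ n := by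
          intro i
          have h3 := w_anti (s := 1 / 2) (by norm_num) (hlen n i)
          rw [w_half] at h3
          simpa using h3
        calc ∑ i, w ((1 / 2 : ℝ≥0) : ℝ) (len n i) ≤ ∑ _i : Fin n → Bool, (1 / 2 : ℝ) ^ n :=
              Finset.sum_le_sum fun i _ => hw i
          _ = 1 := by
              simp only [Finset.sum_const, Finset.card_univ, Fintype.card_pi, Fintype.card_bool,
                Finset.prod_const, Fintype.card_fin, nsmul_eq_mul]
              push_cast
              rw [← mul_pow]; norm_num)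
    simpa using h2
  have h3 : dimH A ≤ ((1 / 2 : ℝ≥0) : ℝ≥0∞) := dimH_le_of_hausdorffMeasure_ne_top
    (ne_top_of_le_ne_top ENNReal.one_ne_top h1)
  simpa using h3

lemma dim_forced {A : Set (ℕ → Bool)} {l e : ℕ} (c : List Bool → Bool)
    (h0 : ∀ x ∈ A, ∀ y ∈ A, pre x l = pre y l)
    (h : ∀ x ∈ A, ∀ n, l ≤ n → n % 2 = e → x n = c (pre x n)) (he : e < 2) :
    dimH A ≤ 1 / 2 := by
  obtain ⟨j, hj1, hj2, hj3⟩ : ∃ j, l ≤ j ∧ j ≤ l + 1 ∧ ∀ n, l ≤ n → n % 2 ≠ e →
      ∃ i, n = j + 2 * i := by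
    by_cases hl : l % 2 = e
    · exact ⟨l + 1, by omega, by omega, fun n hn hne => ⟨(n - (l + 1)) / 2, by omega⟩⟩
    · exact ⟨l, by omega, by omega, fun n hn hne => ⟨(n - l) / 2, by omega⟩⟩
  refine dimH_le_half (fun m b => {x ∈ A | ∀ i : Fin m, x (j + 2 * i) = b i})
    (fun m _ => l + 2 * m) (fun m _ => by omega) ?_ ?_
  · rintro m b x ⟨hxA, hx⟩ y ⟨hyA, hy⟩
    have key : ∀ n, l ≤ n → n ≤ l + 2 * m → pre x n = pre y n := by
      intro n hn
      induction n, hn using Nat.le_induction with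
      | base => intro _; exact h0 x hxA y hyA
      | succ n hn ih =>
        intro hnm
        have ihn := ih (by omega)
        rw [pre_succ, pre_succ, ihn]
        congr 2
        by_cases hne : n % 2 = e
        · rw [h x hxA n hn hne, h y hyA n hn hne, ihn]
        · obtain ⟨i, hi⟩ := hj3 n hn hne
          have him : i < m := by omega
          have h1 := hx ⟨i, him⟩
          have h2 := hy ⟨i, him⟩
          simp only at h1 h2
          rw [hi, h1, h2]
    exact key _ (by omega) le_rfl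
  · intro m x hx
    exact mem_iUnion.2 ⟨fun i => x (j + 2 * i), hx, fun i => rfl⟩

/-- Nodes above which `K` still has dimension greater than `1/2`. -/
def Fat (K : Set (ℕ → Bool)) (p : List Bool) : Prop := 1 / 2 < dimH (K ∩ cyl p)

lemma exists_branch {K : Set (ℕ → Bool)} {p : List Bool} (hp : Fat K p) (N e : ℕ) (he : e < 2) :
    ∃ q, p <+: q ∧ N ≤ q.length ∧ q.length % 2 = e ∧ Fat K (q ++ [false]) ∧
      Fat K (q ++ [true]) := by
  classical
  by_contra hcon
  push Not at hcon
  let c : List Bool → Bool := fun q => decide (Fat K (q ++ [true]))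
  let M := max N p.length
  let U1 : List Bool → Set (ℕ → Bool) := fun q => if Fat K q then ∅ else K ∩ cyl q
  let U2 : List Bool → Set (ℕ → Bool) := fun r =>
    {x | x ∈ K ∧ x ∈ cyl p ∧ x ∈ cyl r ∧ r.length = M ∧ ∀ n, p.length ≤ n → Fat K (pre x n)}
  have hcov : K ∩ cyl p ⊆ (⋃ q, U1 q) ∪ ⋃ r, U2 r := by
    rintro x ⟨hx, hxp⟩
    by_cases hall : ∀ n, p.length ≤ n → Fat K (pre x n)
    · right
      exact mem_iUnion.2 ⟨pre x M, hx, hxp, by simp, by simp, hall⟩
    · left
      push Not at hall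
      obtain ⟨n, hn, hnf⟩ := hall
      refine mem_iUnion.2 ⟨pre x n, ?_⟩
      simp only [U1, if_neg hnf]
      exact ⟨hx, by simp⟩
  have hU1 : dimH (⋃ q, U1 q) ≤ 1 / 2 := by
    rw [dimH_iUnion]
    refine iSup_le fun q => ?_
    by_cases hq : Fat K q
    · simp [U1, hq]
    · simp only [U1, if_neg hq]
      exact not_lt.1 hq
  have hU2 : dimH (⋃ r, U2 r) ≤ 1 / 2 := by
    rw [dimH_iUnion]
    refine iSup_le fun r => ?_
    refine dim_forced (l := M) (e := e) c ?_ ?_ he
    · rintro x ⟨-, -, hx, hr, -⟩ y ⟨-, -, hy, -, -⟩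
      rw [← hr, mem_cyl.1 hx, mem_cyl.1 hy]
    · rintro x ⟨hxK, hxp, hx, hr, hfat⟩ n hn hne
      have hpn : p.length ≤ n := le_trans (le_max_right _ _) hn
      have h1 : p <+: pre x n := by
        rw [← mem_cyl.1 hxp]
        simpa using pre_prefix x hpn
      have h2 := hcon (pre x n) h1 (by simpa using le_trans (le_max_left _ _) hn) (by simpa using hne)
      have h3 := hfat (n + 1) (by omega)
      rw [pre_succ] at h3
      simp only [c]
      cases hb : x n with
      | false =>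
        rw [hb] at h3
        simpa using h2 h3
      | true =>
        rw [hb] at h3
        simpa using h3
  have := (dimH_mono hcov).trans (le_of_eq (dimH_union _ _))
  exact absurd hp (not_lt.2 (this.trans (max_le hU1 hU2)))

/-- A small closed set along each branch of which both players have infinitely many choices. -/
theorem exists_P {K : Set (ℕ → Bool)} (hK : IsClosed K) (hd : 1 / 2 < dimH K) :
    ∃ P : Set (ℕ → Bool), IsClosed P ∧ P.Nonempty ∧ P ⊆ K ∧ dimH P ≤ 1 / 2 ∧
      ∀ x ∈ P, ∀ n e, e < 2 → ∃ m, n ≤ m ∧ m % 2 = e ∧ ∃ y ∈ P, pre y m = pre x m ∧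
        y m ≠ x m := by
  classical
  have hroot : Fat K [] := by simpa [Fat] using hd
  choose! nxt hn1 hn2 hn3 hn4 hn5 using
    fun (p : List Bool) (hp : Fat K p) (N e : ℕ) (he : e < 2) => exists_branch hp N e he
  let r : List Bool → List Bool := fun σ =>
    List.rec (nxt [] 0 0) (fun i σ q => nxt (q ++ [i]) (2 * (σ.length + 1))
      ((σ.length + 1) % 2)) σ
  have r0 : r [] = nxt [] 0 0 := rfl
  have rs : ∀ i σ, r (i :: σ) = nxt (r σ ++ [i]) (2 * (σ.length + 1)) ((σ.length + 1) % 2) :=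
    fun i σ => rfl
  have hfat : ∀ σ i, Fat K (r σ ++ [i]) := by
    intro σ
    induction σ with
    | nil =>
      intro i
      cases i
      · exact hn4 _ hroot 0 0 (by norm_num)
      · exact hn5 _ hroot 0 0 (by norm_num)
    | cons j σ ih =>
      intro i
      rw [rs]
      cases i
      · exact hn4 _ (ih j) _ _ (Nat.mod_lt _ (by norm_num))
      · exact hn5 _ (ih j) _ _ (Nat.mod_lt _ (by norm_num))
  have hlen : ∀ σ, 2 * σ.length ≤ (r σ).length := by
    intro σ
    cases σ with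
    | nil => simp
    | cons j σ =>
      rw [rs]
      exact hn2 _ (hfat σ j) _ _ (Nat.mod_lt _ (by norm_num))
  have hpar : ∀ σ, (r σ).length % 2 = σ.length % 2 := by
    intro σ
    cases σ with
    | nil => rw [r0]; exact hn3 _ hroot 0 0 (by norm_num)
    | cons j σ =>
      rw [rs]
      exact hn3 _ (hfat σ j) _ _ (Nat.mod_lt _ (by norm_num))
  have hext : ∀ i σ, r σ ++ [i] <+: r (i :: σ) := by
    intro i σ
    rw [rs]
    exact hn1 _ (hfat σ i) _ _ (Nat.mod_lt _ (by norm_num))
  let P : Set (ℕ → Bool) := ⋂ k : ℕ, ⋃ b : Fin k → Bool, cyl (r (List.ofFn b))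
  have hP : ∀ x, x ∈ P ↔ ∀ k, ∃ σ : List Bool, σ.length = k ∧ x ∈ cyl (r σ) := by
    intro x
    simp only [P, mem_iInter, mem_iUnion]
    refine forall_congr' fun k => ⟨?_, ?_⟩
    · rintro ⟨b, hb⟩; exact ⟨_, by simp, hb⟩
    · rintro ⟨σ, rfl, hx⟩
      exact ⟨fun i => σ.get i, by rw [List.ofFn_get]; exact hx⟩
  have hclosed : IsClosed P := by
    refine isClosed_iInter fun k => isClosed_iUnion_of_finite fun b => isClosed_cyl _
  have hres : ∀ τ : List Bool, ∃ b : ℕ → Bool, PiNat.res b τ.length = τ := by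
    intro τ
    induction τ with
    | nil => exact ⟨fun _ => false, rfl⟩
    | cons i τ ih =>
      obtain ⟨b, hb⟩ := ih
      refine ⟨Function.update b τ.length i, ?_⟩
      rw [List.length_cons, PiNat.res_succ, Function.update_self]
      congr 1
      conv_rhs => rw [← hb]
      rw [PiNat.res_eq_res]
      intro m hm
      simp [Function.update_of_ne (ne_of_lt hm)]
  have hpt : ∀ τ, ∃ y ∈ P, y ∈ cyl (r τ) := by
    intro τ
    obtain ⟨b, hb⟩ := hres τ
    have hne := IsCompact.nonempty_iInter_of_sequence_nonempty_isCompact_isClosed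
      (fun k => cyl (r (PiNat.res b k)))
      (fun k => cyl_anti ((List.prefix_append _ _).trans (hext (b k) (PiNat.res b k))))
      (fun k => cyl_nonempty _) (isClosed_cyl _).isCompact (fun k => isClosed_cyl _)
    obtain ⟨y, hy⟩ := hne
    rw [mem_iInter] at hy
    refine ⟨y, (hP y).2 fun k => ⟨PiNat.res b k, PiNat.res_length _ _, hy k⟩, ?_⟩
    have := hy τ.length
    rwa [hb] at this
  refine ⟨P, hclosed, ?_, ?_, ?_, ?_⟩
  · obtain ⟨y, hy, -⟩ := hpt []; exact ⟨y, hy⟩
  · intro x hx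
    by_contra hxK
    obtain ⟨n, hn⟩ := exists_cyl_disjoint hK hxK
    obtain ⟨σ, hσ, hxσ⟩ := (hP x).1 hx n
    have h1 : (K ∩ cyl (r σ ++ [false])).Nonempty := by
      rw [nonempty_iff_ne_empty]
      intro he
      have := hfat σ false
      unfold Fat at this
      rw [he, dimH_empty] at this
      simp at this
    obtain ⟨z, hzK, hz⟩ := h1
    refine disjoint_left.1 hn (cyl_anti ?_ (cyl_anti (List.prefix_append _ _) hz)) hzK
    rw [← mem_cyl.1 hxσ]
    exact pre_prefix x (by have := hlen σ; omega)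
  · refine dimH_le_half (fun k b => cyl (r (List.ofFn b))) (fun k b => (r (List.ofFn b)).length)
      (fun k b => by simpa using hlen (List.ofFn b)) ?_ ?_
    · intro k b x hx y hy
      rw [mem_cyl.1 hx, mem_cyl.1 hy]
    · intro k
      exact iInter_subset _ k
  · intro x hx n e he
    obtain ⟨σ, hσ, hxσ⟩ := (hP x).1 hx (2 * n + e)
    refine ⟨(r σ).length, by have := hlen σ; omega, by have := hpar σ; omega, ?_⟩
    obtain ⟨y, hyP, hy⟩ := hpt ((!x (r σ).length) :: σ)
    have h2 := cyl_anti (hext _ _) hy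
    rw [mem_cyl_append] at h2
    refine ⟨y, hyP, ?_, ?_⟩
    · rw [mem_cyl.1 h2.1, mem_cyl.1 hxσ]
    · rw [h2.2]; simp

end V11258.DW
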