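import Pool.Agent.V11258.DW.Game

/-! The main theorem. -/

open Set Filter Topology MeasureTheory MeasureTheory.Measure
open scoped ENNReal NNReal

namespace V11258.DW

attribute [local instance] cantorMetric

lemma isClosed_canopy (T : Set (List Bool)) : IsClosed (canopy T) := by
  refine isClosed_of_pre fun x hx => ?_
  simp only [canopy, mem_ofPred_eq, not_forall] at hx
  obtain ⟨n, hn⟩ := hx
  exact ⟨n, fun y hy h => hn (by rw [← hy]; exact h n)⟩

lemma exists_child {T : Set (List Bool)} (hT : IsSubtree T) :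
    ∃ c : List Bool → Bool, ∀ p ∈ T, p ++ [c p] ∈ T := by
  have : ∀ p, ∃ b, p ∈ T → p ++ [b] ∈ T := by
    intro p
    by_cases hp : p ∈ T
    · obtain ⟨q, hq, ⟨t, ht⟩, hne⟩ := hT.2 p hp
      cases t with
      | nil => simp at ht; exact absurd ht hne
      | cons b t =>
        refine ⟨b, fun _ => hT.1 _ q ⟨t, ?_⟩ hq⟩
        rw [← ht]; simp
    · exact ⟨false, fun h => absurd h hp⟩
  choose c hc using this
  exact ⟨c, hc⟩

/-- The set of plays in `K` where, once outside the tree of `P`, the player moving at stages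
congruent to `e` follows `c`. -/
def Follow (K P : Set (ℕ → Bool)) (c : List Bool → Bool) (e : ℕ) : Set (ℕ → Bool) :=
  {x | x ∈ K ∧ ∀ m, m % 2 = e → ¬ (cyl (pre x m) ∩ P).Nonempty → x m = c (pre x m)}

lemma isClosed_follow {K P : Set (ℕ → Bool)} (hK : IsClosed K) (c : List Bool → Bool) (e : ℕ) :
    IsClosed (Follow K P c e) := by
  refine isClosed_of_pre fun x hx => ?_
  by_cases hxK : x ∈ K
  · have : ¬ ∀ m, m % 2 = e → ¬ (cyl (pre x m) ∩ P).Nonempty → x m = c (pre x m) :=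
      fun h => hx ⟨hxK, h⟩
    push Not at this
    obtain ⟨m, h1, h2, h3⟩ := this
    refine ⟨m + 1, fun y hy hyF => ?_⟩
    have h4 : pre y m = pre x m := pre_eq_iff.2 fun i hi => (pre_eq_iff.1 hy) i (by omega)
    have h5 : y m = x m := (pre_eq_iff.1 hy) m (by omega)
    apply h3
    rw [← h5, ← h4]
    refine hyF.2 m h1 ?_
    rw [h4]
    exact not_nonempty_iff_eq_empty.2 h2
  · obtain ⟨n, hn⟩ := exists_cyl_disjoint hK hxK
    exact ⟨n, fun y hy hyF => disjoint_left.1 hn (mem_cyl_pre.2 hy) hyF.1⟩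

lemma nonempty_mono {P : Set (ℕ → Bool)} {p q : List Bool} (h : p <+: q)
    (hq : (cyl q ∩ P).Nonempty) : (cyl p ∩ P).Nonempty := by
  obtain ⟨x, hx, hxP⟩ := hq
  exact ⟨x, cyl_anti h hx, hxP⟩

lemma dimH_follow {K P : Set (ℕ → Bool)} (hP : IsClosed P) (hdP : dimH P ≤ 1 / 2)
    (c : List Bool → Bool) (e : ℕ) (he : e < 2) : dimH (Follow K P c e) ≤ 1 / 2 := by
  classical
  let U : List Bool → Set (ℕ → Bool) := fun q =>
    {x | x ∈ cyl q ∧ ∀ m, q.length ≤ m → m % 2 = e → x m = c (pre x m)}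
  have hcov : Follow K P c e ⊆ P ∪ ⋃ q, U q := by
    rintro x ⟨hxK, hx⟩
    by_cases hxP : x ∈ P
    · exact Or.inl hxP
    · right
      obtain ⟨n, hn⟩ := exists_cyl_disjoint hP hxP
      refine mem_iUnion.2 ⟨pre x n, by simp, fun m hm hme => hx m hme fun hne => ?_⟩
      rw [pre_length] at hm
      obtain ⟨z, hz, hzP⟩ := nonempty_mono (pre_prefix x hm) hne
      exact disjoint_left.1 hn hz hzP
  refine (dimH_mono hcov).trans ?_
  rw [dimH_union, dimH_iUnion]
  refine max_le hdP (iSup_le fun q => ?_)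
  refine dim_forced (l := q.length) (e := e) c ?_ ?_ he
  · rintro x ⟨hx, -⟩ y ⟨hy, -⟩
    rw [mem_cyl.1 hx, mem_cyl.1 hy]
  · rintro x ⟨-, hx⟩ n hn hne
    exact hx n hn hne

/-- Either a strategy leaves the tree of `P`, or its plays contain a perfect subset of `P`. -/
lemma dichotomy {T : Set (List Bool)} (hT : IsSubtree T) {P : Set (ℕ → Bool)} (hP : IsClosed P)
    (hne : P.Nonempty) (hPT : P ⊆ canopy T)
    (hbr : ∀ x ∈ P, ∀ n e, e < 2 → ∃ m, n ≤ m ∧ m % 2 = e ∧ ∃ y ∈ P, pre y m = pre x m ∧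
        y m ≠ x m)
    {c : List Bool → Bool} (hc : ∀ p ∈ T, p ++ [c p] ∈ T) {e : ℕ} (he : e < 2)
    {σ : List Bool → Bool} (hσ : ∀ p ∈ T, p.length % 2 = e → p ++ [σ p] ∈ T) :
    (∃ y ∈ canopy T, (∀ m, m % 2 = e → y m = σ (pre y m)) ∧
      ∃ n, n % 2 = e ∧ (cyl (pre y n) ∩ P).Nonempty ∧ ¬ (cyl (pre y (n + 1)) ∩ P).Nonempty ∧
        ∀ m, n + 1 ≤ m → m % 2 ≠ e → y m = c (pre y m)) ∨
    (∃ C : Set (ℕ → Bool), Perfect C ∧ C.Nonempty ∧ C ⊆ P ∧
      ∀ x ∈ C, ∀ m, m % 2 = e → x m = σ (pre x m)) := by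
  classical
  let Cons : List Bool → Prop := fun q => ∀ x ∈ cyl q, ∀ k < q.length, k % 2 = e →
    x k = σ (pre x k)
  have hcons_succ : ∀ (y : ℕ → Bool) (m : ℕ), Cons (pre y m) →
      (m % 2 = e → y m = σ (pre y m)) → Cons (pre y (m + 1)) := by
    intro y m h1 h2 x hx k hk hke
    rw [mem_cyl_pre] at hx
    rw [pre_length] at hk
    have hx' : pre x m = pre y m := pre_eq_iff.2 fun i hi => (pre_eq_iff.1 hx) i (by omega)
    rcases Nat.lt_succ_iff_lt_or_eq.1 hk with hk | hk
    · exact h1 x (mem_cyl_pre.2 hx') k (by simpa using hk) hke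
    · subst hk
      rw [(pre_eq_iff.1 hx) k (by omega), hx']
      exact h2 hke
  by_cases hB : ∀ q, (cyl q ∩ P).Nonempty → Cons q → q.length % 2 = e →
      (cyl (q ++ [σ q]) ∩ P).Nonempty
  · right
    -- a child in the tree of `P`
    have hd : ∀ q, ∃ b, (cyl q ∩ P).Nonempty → (cyl (q ++ [b]) ∩ P).Nonempty := by
      intro q
      by_cases hq : (cyl q ∩ P).Nonempty
      · obtain ⟨x, hx, hxP⟩ := hq
        exact ⟨x q.length, fun _ => ⟨x, cyl_append_of_mem hx, hxP⟩⟩
      · exact ⟨false, fun h => absurd h hq⟩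
    choose d hd using hd
    have hext : ∀ q, (cyl q ∩ P).Nonempty → Cons q →
        ∃ y ∈ P, y ∈ cyl q ∧ ∀ m, m % 2 = e → y m = σ (pre y m) := by
      intro q hq hqc
      obtain ⟨y, hy, hrun⟩ := exists_run (fun q => if q.length % 2 = e then σ q else d q) q
      have key : ∀ m, q.length ≤ m → (cyl (pre y m) ∩ P).Nonempty ∧ Cons (pre y m) := by
        intro m hm
        induction m, hm using Nat.le_induction with
        | base => rw [mem_cyl.1 hy]; exact ⟨hq, hqc⟩
        | succ m hm ih =>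
          have h1 := hrun m hm
          simp only [pre_length] at h1
          by_cases hme : m % 2 = e
          · rw [if_pos hme] at h1
            refine ⟨?_, hcons_succ y m ih.2 fun _ => h1⟩
            rw [pre_succ, h1]
            exact hB _ ih.1 ih.2 (by simpa using hme)
          · rw [if_neg hme] at h1
            refine ⟨?_, hcons_succ y m ih.2 fun h => absurd h hme⟩
            rw [pre_succ, h1]
            exact hd _ ih.1
      refine ⟨y, ?_, hy, ?_⟩
      · by_contra hyP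
        obtain ⟨n, hn⟩ := exists_cyl_disjoint hP hyP
        obtain ⟨z, hz, hzP⟩ := (key (max n q.length) (le_max_right _ _)).1
        exact disjoint_left.1 hn (cyl_anti (pre_prefix y (le_max_left _ _)) hz) hzP
      · intro m hme
        exact (key (max (m + 1) q.length) (le_max_right _ _)).2 y (by simp) m
          (by simp) hme
    refine ⟨{x | x ∈ P ∧ ∀ m, m % 2 = e → x m = σ (pre x m)}, ⟨?_, ?_⟩, ?_, fun x hx => hx.1,
      fun x hx => hx.2⟩
    · refine isClosed_of_pre fun x hx => ?_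
      by_cases hxP : x ∈ P
      · have : ¬ ∀ m, m % 2 = e → x m = σ (pre x m) := fun h => hx ⟨hxP, h⟩
        push Not at this
        obtain ⟨m, h1, h3⟩ := this
        refine ⟨m + 1, fun y hy hyF => ?_⟩
        have h4 : pre y m = pre x m := pre_eq_iff.2 fun i hi => (pre_eq_iff.1 hy) i (by omega)
        have h5 : y m = x m := (pre_eq_iff.1 hy) m (by omega)
        apply h3
        rw [← h5, ← h4]
        exact hyF.2 m h1
      · obtain ⟨n, hn⟩ := exists_cyl_disjoint hP hxP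
        exact ⟨n, fun y hy hyF => disjoint_left.1 hn (mem_cyl_pre.2 hy) hyF.1⟩
    · rintro x ⟨hxP, hx⟩
      rw [accPt_iff_nhds]
      intro U hU
      obtain ⟨n, hn⟩ := cyl_nhds hU
      obtain ⟨m, hnm, hme, y, hyP, hyx, hyne⟩ := hbr x hxP n (1 - e) (by omega)
      have hme' : m % 2 ≠ e := by omega
      have h1 : Cons (pre y (m + 1)) := by
        intro z hz k hk hke
        rw [pre_length] at hk
        rw [mem_cyl_pre] at hz
        have hkm : k < m := by
          rcases Nat.lt_succ_iff_lt_or_eq.1 hk with h | h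
          · exact h
          · exact absurd (h ▸ hke) hme'
        have hzx : pre z m = pre x m := by
          rw [← hyx]
          exact pre_eq_iff.2 fun i hi => (pre_eq_iff.1 hz) i (by omega)
        have hzk : pre z k = pre x k := pre_eq_iff.2 fun i hi => (pre_eq_iff.1 hzx) i (by omega)
        rw [(pre_eq_iff.1 hzx) k hkm, hzk]
        exact hx k hke
      obtain ⟨z, hzP, hzc, hz⟩ := hext (pre y (m + 1)) ⟨y, by simp, hyP⟩ h1
      rw [mem_cyl_pre] at hzc
      have hzx : pre z m = pre x m := by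
        rw [← hyx]
        exact pre_eq_iff.2 fun i hi => (pre_eq_iff.1 hzc) i (by omega)
      refine ⟨z, ⟨hn ?_, hzP, hz⟩, ?_⟩
      · rw [mem_cyl_pre]
        exact pre_eq_iff.2 fun i hi => (pre_eq_iff.1 hzx) i (by omega)
      · intro hzx'
        apply hyne
        rw [← hzx', (pre_eq_iff.1 hzc) m (by omega)]
    · obtain ⟨y, hy⟩ := hne
      obtain ⟨z, hzP, -, hz⟩ := hext [] ⟨y, by simp, hy⟩ (fun x _ k hk => by simp at hk)
      exact ⟨z, hzP, hz⟩
  · left
    push Not at hB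
    obtain ⟨q, hq, hqc, hqe, hqn⟩ := hB
    obtain ⟨x, hx, hxP⟩ := hq
    have hqT : q ∈ T := by rw [← mem_cyl.1 hx]; exact hPT hxP _
    obtain ⟨y, hy, hrun⟩ := exists_run (fun q => if q.length % 2 = e then σ q else c q)
      (q ++ [σ q])
    have hy' := mem_cyl_append.1 hy
    have hylen : pre y (q.length + 1) = q ++ [σ q] := by simpa using mem_cyl.1 hy
    have hyT : y ∈ canopy T := by
      have h1 : ∀ m, q.length + 1 ≤ m → pre y m ∈ T := by
        intro m hm
        induction m, hm using Nat.le_induction with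
        | base => rw [hylen]; exact hσ q hqT hqe
        | succ m hm ih =>
          have h1 := hrun m (by simpa using hm)
          simp only [pre_length] at h1
          by_cases hme : m % 2 = e
          · rw [if_pos hme] at h1
            rw [pre_succ, h1]
            exact hσ _ ih (by simpa using hme)
          · rw [if_neg hme] at h1
            rw [pre_succ, h1]
            exact hc _ ih
      intro m
      exact hT.1 _ _ (pre_prefix y (le_max_left m (q.length + 1))) (h1 _ (le_max_right _ _))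
    refine ⟨y, hyT, ?_, q.length, hqe, ?_, ?_, ?_⟩
    · intro m hme
      rcases lt_trichotomy m q.length with h | h | h
      · exact hqc y hy'.1 m h hme
      · rw [h, hy'.2, mem_cyl.1 hy'.1]
      · have h1 := hrun m (by simpa using h)
        simpa [hme] using h1
    · rw [mem_cyl.1 hy'.1]; exact ⟨x, hx, hxP⟩
    · rw [hylen]; exact not_nonempty_iff_eq_empty.2 hqn
    · intro m hm hme
      have h1 := hrun m (by simpa using hm)
      simpa [hme] using h1

lemma exists_D {K E : Set (ℕ → Bool)} (hK : IsClosed K) (hE : IsClosed E)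
    (hdE : dimH E ≤ 1 / 2) (hd : 1 / 2 < dimH K) {δ : ℝ≥0∞} (h1 : 1 / 2 ≤ δ)
    (h2 : δ ≤ dimH K) : ∃ D, D ⊆ K \ E ∧ dimH D = δ := by
  classical
  have hKE : dimH (K \ E) = dimH K := by
    refine le_antisymm (dimH_mono sdiff_subset) ?_
    have h3 : dimH K ≤ max (dimH (K \ E)) (dimH E) := by
      rw [← dimH_union]
      exact dimH_mono (by intro x hx; by_cases h : x ∈ E; exact Or.inr h; exact Or.inl ⟨hx, h⟩)
    rcases le_max_iff.1 h3 with h | h
    · exact h
    · exact absurd (h.trans hdE) (not_le.2 hd)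
  rcases h2.eq_or_lt with h | h
  · exact ⟨K \ E, Subset.rfl, by rw [hKE, h]⟩
  · rw [← hKE] at h
    have hcov : K \ E ⊆ ⋃ q : List Bool, (if Disjoint (cyl q) E then K ∩ cyl q else ∅) := by
      rintro x ⟨hx, hxE⟩
      obtain ⟨n, hn⟩ := exists_cyl_disjoint hE hxE
      refine mem_iUnion.2 ⟨pre x n, ?_⟩
      rw [if_pos hn]
      exact ⟨hx, by simp⟩
    have h3 := lt_of_lt_of_le h (dimH_mono hcov)
    rw [dimH_iUnion] at h3
    obtain ⟨q, hq⟩ := lt_iSup_iff.1 h3
    by_cases hqE : Disjoint (cyl q) E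
    · rw [if_pos hqE] at hq
      lift δ to ℝ≥0 using (ne_top_of_lt hq)
      have hδ : 0 < δ := by
        rw [← ENNReal.coe_pos]
        exact lt_of_lt_of_le (by norm_num) h1
      obtain ⟨C, -, hC, hdC⟩ := exists_dimH_eq (hK.inter (isClosed_cyl q)) hδ hq
      refine ⟨C, fun x hx => ⟨(hC hx).1, fun hxE => ?_⟩, hdC⟩
      exact disjoint_left.1 hqE (hC hx).2 hxE
    · rw [if_neg hqE, dimH_empty] at hq
      simp at hq

theorem main (T : Set (List Bool)) (hT : IsSubtree T) (hd : 1 / 2 < dimH (canopy T))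
    (δ : ℝ≥0∞) (h1 : 1 / 2 ≤ δ) (h2 : δ ≤ dimH (canopy T)) :
    ∃ W WI WII : Set (ℕ → Bool), W ⊆ canopy T ∧ WI ⊆ canopy T ∧ WII ⊆ canopy T ∧
      dimH W = δ ∧ dimH WI = δ ∧ dimH WII = δ ∧
      ¬ WinsI T W ∧ ¬ WinsII T W ∧ WinsI T WI ∧ WinsII T WII := by
  obtain ⟨c, hc⟩ := exists_child hT
  have hK := isClosed_canopy T
  obtain ⟨P, hP, hPne, hPK, hdP, hbr⟩ := exists_P hK hd
  obtain ⟨B, hB⟩ := exists_bernstein
  -- the non-determined set
  obtain ⟨D, hD, hdD⟩ := exists_D hK (isClosed_follow (P := P) hK c 1)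
    (dimH_follow hP hdP c 1 (by norm_num)) hd h1 h2
  let V2 : Set (ℕ → Bool) := {x | x ∈ Follow (canopy T) P c 0 ∧ ∃ n, n % 2 = 1 ∧
    (cyl (pre x n) ∩ P).Nonempty ∧ ¬ (cyl (pre x (n + 1)) ∩ P).Nonempty}
  -- player I follows `c`
  let S0 : Set (ℕ → Bool) := {x | x ∈ canopy T ∧ ∀ n, n % 2 = 0 → x n = c (pre x n)}
  let S1 : Set (ℕ → Bool) := {x | x ∈ canopy T ∧ ∀ n, n % 2 = 1 → x n = c (pre x n)}
  have hS0 : dimH S0 ≤ 1 / 2 := dim_forced (l := 0) (e := 0) c (fun x _ y _ => rfl)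
    (fun x hx n _ hn => hx.2 n hn) (by norm_num)
  have hS1 : dimH S1 ≤ 1 / 2 := dim_forced (l := 0) (e := 1) c (fun x _ y _ => rfl)
    (fun x hx n _ hn => hx.2 n hn) (by norm_num)
  have hS1c : IsClosed S1 := by
    refine isClosed_of_pre fun x hx => ?_
    by_cases hxK : x ∈ canopy T
    · have : ¬ ∀ m, m % 2 = 1 → x m = c (pre x m) := fun h => hx ⟨hxK, h⟩
      push Not at this
      obtain ⟨m, h1, h3⟩ := this
      refine ⟨m + 1, fun y hy hyF => ?_⟩
      have h4 : pre y m = pre x m := pre_eq_iff.2 fun i hi => (pre_eq_iff.1 hy) i (by omega)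
      have h5 : y m = x m := (pre_eq_iff.1 hy) m (by omega)
      apply h3
      rw [← h5, ← h4]
      exact hyF.2 m h1
    · obtain ⟨n, hn⟩ := exists_cyl_disjoint hK hxK
      exact ⟨n, fun y hy hyF => disjoint_left.1 hn (mem_cyl_pre.2 hy) hyF.1⟩
  obtain ⟨D0, hD0, hdD0⟩ := exists_D hK isClosed_empty (by simp) hd h1 h2
  obtain ⟨D1, hD1, hdD1⟩ := exists_D hK hS1c hS1 hd h1 h2
  refine ⟨(P ∩ B ∪ V2) ∪ D, S0 ∪ D0, D1, ?_, ?_, ?_, ?_, ?_, hdD1, ?_, ?_, ?_, ?_⟩
  · rintro x ((hx | hx) | hx)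
    · exact hPK hx.1
    · exact hx.1.1
    · exact (hD hx).1
  · rintro x (hx | hx)
    · exact hx.1
    · exact (hD0 hx).1
  · intro x hx; exact (hD1 hx).1
  · rw [dimH_union, dimH_union, hdD]
    refine max_eq_right (le_trans (max_le ?_ ?_) h1)
    · exact (dimH_mono inter_subset_left).trans hdP
    · exact (dimH_mono fun x hx => hx.1).trans (dimH_follow hP hdP c 0 (by norm_num))
  · rw [dimH_union, hdD0]
    exact max_eq_right (hS0.trans h1)
  · rintro ⟨σ, hσ, hwin⟩
    rcases dichotomy hT hP hPne hPK hbr hc (e := 0) (by norm_num)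
      (fun p hp hpe => hσ p hp (Nat.even_iff.2 hpe)) with
      ⟨y, hyT, hy, n, hn, hy1, hy2, hy3⟩ | ⟨C, hC, hCne, hCP, hCσ⟩
    · rcases hwin y hyT (fun m hm => hy m (Nat.even_iff.1 hm)) with (hx | hx) | hx
      · exact hy2 ⟨y, by simp, hx.1⟩
      · obtain ⟨-, n', hn', h3, h4⟩ := hx
        rcases lt_trichotomy n n' with h | h | h
        · exact hy2 (nonempty_mono (pre_prefix y h) h3)
        · omega
        · exact h4 (nonempty_mono (pre_prefix y h) hy1)
      · refine (hD hx).2 ⟨hyT, fun m hm hmR => ?_⟩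
        refine hy3 m ?_ (by omega)
        by_contra hlt
        exact hmR (nonempty_mono (pre_prefix y (by omega)) hy1)
    · obtain ⟨-, x, hxC, hxB⟩ := hB C hC hCne
      have hxP := hCP hxC
      rcases hwin x (hPK hxP) (fun m hm => hCσ x hxC m (Nat.even_iff.1 hm)) with (hx | hx) | hx
      · exact hxB hx.2
      · obtain ⟨-, n', -, -, h4⟩ := hx
        exact h4 ⟨x, by simp, hxP⟩
      · exact (hD hx).2 ⟨hPK hxP, fun m _ hmR => absurd ⟨x, by simp, hxP⟩ hmR⟩
  · rintro ⟨σ, hσ, hwin⟩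
    rcases dichotomy hT hP hPne hPK hbr hc (e := 1) (by norm_num)
      (fun p hp hpe => hσ p hp (Nat.odd_iff.2 hpe)) with
      ⟨y, hyT, hy, n, hn, hy1, hy2, hy3⟩ | ⟨C, hC, hCne, hCP, hCσ⟩
    · refine hwin y hyT (fun m hm => hy m (Nat.odd_iff.1 hm)) (Or.inl (Or.inr ⟨⟨hyT, ?_⟩,
        n, hn, hy1, hy2⟩))
      intro m hm hmR
      refine hy3 m ?_ (by omega)
      by_contra hlt
      exact hmR (nonempty_mono (pre_prefix y (by omega)) hy1)
    · obtain ⟨⟨x, hxC, hxB⟩, -⟩ := hB C hC hCne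
      have hxP := hCP hxC
      exact hwin x (hPK hxP) (fun m hm => hCσ x hxC m (Nat.odd_iff.1 hm))
        (Or.inl (Or.inl ⟨hxP, hxB⟩))
  · exact ⟨c, fun p hp _ => hc p hp, fun x hxT hx =>
      Or.inl ⟨hxT, fun n hn => hx n (Nat.even_iff.2 hn)⟩⟩
  · exact ⟨c, fun p hp _ => hc p hp, fun x hxT hx hxD =>
      (hD1 hxD).2 ⟨hxT, fun n hn => hx n (Nat.odd_iff.2 hn)⟩⟩

end V11258.DW
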